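import Pool.Agent.H.MP_97c21f_co.Shor

open MvPolynomial

namespace Pool.Agent.Results.MP_97c21f_co.Linear

/-- The triangle S determined by (A), (B), (C); the variable 0 is m and the variable 1 is n. -/
noncomputable def S (P Q : MvPolynomial (Fin 2) ℂ) : ℕ → ℕ → ℂ
  | 0, 0 => 1
  | 0, _ + 1 => 0
  | _ + 1, 0 => 0
  | m + 1, n + 1 =>
    eval ![(m : ℂ), ((n + 1 : ℕ) : ℂ)] P * S P Q m (n + 1) +
      eval ![(m : ℂ), ((n + 1 : ℕ) : ℂ)] Q * S P Q m n

/-- The row sums are m ^ m for every m ≥ 1. -/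
def Admissible (P Q : MvPolynomial (Fin 2) ℂ) : Prop :=
  ∀ m : ℕ, 1 ≤ m → ∑ n ∈ Finset.Icc 1 m, S P Q m n = (m : ℂ) ^ m

open Pool.Agent.H.MP_97c21f_co

lemma S_eq (P Q : MvPolynomial (Fin 2) ℂ) (p q : ℂ → ℂ → ℂ) (hp : ∀ x y, eval ![x, y] P = p x y)
    (hq : ∀ x y, eval ![x, y] Q = q x y) (m : ℕ) : ∀ n, S P Q m n = T p q m n := by
  induction m with
  | zero => intro n; cases n <;> rfl
  | succ m ih =>
    intro n
    cases n with
    | zero => rfl
    | succ n => rw [S, T, hp, hq, ih, ih]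

theorem result (P Q : MvPolynomial (Fin 2) ℂ) (hP : P.totalDegree ≤ 1) (hQ : Q.totalDegree ≤ 1) :
    Admissible P Q ↔ P = X 0 ∧ Q = X 0 + X 1 := by
  constructor
  · intro h
    obtain ⟨a0, a1, a2, rfl⟩ := lin_form P hP
    obtain ⟨b0, b1, b2, rfl⟩ := lin_form Q hQ
    obtain ⟨rfl, rfl, rfl, rfl, rfl, rfl⟩ := uniq a0 a1 a2 b0 b1 b2 fun m hm => by
      rw [← h m hm]
      exact Finset.sum_congr rfl fun n _ =>
        (S_eq _ _ _ _ (fun x y => by simp) (fun x y => by simp) m n).symm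
    simp
  · rintro ⟨rfl, rfl⟩ m hm
    rw [← shor m hm]
    exact Finset.sum_congr rfl fun n _ =>
      S_eq _ _ _ _ (fun x y => by simp) (fun x y => by simp) m n

end Pool.Agent.Results.MP_97c21f_co.Linear
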